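import Pool.Agent.H53.GX.Targets2

/-!
Row OPF: from operations to families.
-/

set_option autoImplicit false

open Pool.Agent.H68.BP Pool.Agent.H58.SF Pool.Agent.H53.GM Pool.Agent.H53.GX
open Pool.Agent.H53.GR (So)

namespace Pool.Agent.H68.GX

open Classical in
theorem pf_OPF (hVTP : Pool.Agent.H53.GX.T_VTP) : Pool.Agent.H53.GX.T_OPF := by
  intro τ σ N k F Al hk C I hC J _ Φ hΦ
  obtain ⟨i0⟩ := ‹Nonempty J›
  let Q : So N k → (J → Ty τ N (Fin k)) → (J → Ty τ N (Fin k)) → Prop := fun e w P =>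
    VP C I P ∧ ∀ i, rse e.1 (P i) = w i
  let G : So N k → (J → Ty τ N (Fin k)) → Ty τ N (Fin k) := fun e w =>
    if h : I ⊂ e.1 ∧ ∃ P, Q e w P then rse e.1 (Φ h.2.choose) else w i0
  have hval : ∀ P : J → Ty τ N (Fin k), VP C I P → ∀ e : So N k,
      G e (fun i => rse e.1 (P i)) = rse e.1 (Φ P) := by
    intro P hP e
    by_cases hI : I ⊂ e.1
    · have h : I ⊂ e.1 ∧ ∃ P', Q e (fun i => rse e.1 (P i)) P' := ⟨hI, P, hP, fun _ => rfl⟩
      have h1 : G e (fun i => rse e.1 (P i)) = rse e.1 (Φ h.2.choose) := dif_pos h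
      rw [h1]
      exact hΦ.nat _ _ h.2.choose_spec.1 hP e.1 hI h.2.choose_spec.2
    · have h1 : G e (fun i => rse e.1 (P i)) = rse e.1 (P i0) :=
        dif_neg (fun h => hI h.1)
      rw [h1]
      exact (hΦ.idem P hP e.1 (rse e.1 (P i0)) fun i => hP.eq e.1 hI i i0).symm
  refine ⟨G, ⟨?_, ?_⟩, hval⟩
  · intro l p hp
    obtain ⟨P, hP, hpe, hhas⟩ := hVTP τ σ N k F Al hk C I hC J l p hp
    have h1 : ∀ e : So N k, G e (fun i => p i e) = rse e.1 (Φ P) := by
      intro e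
      have : (fun i => p i e) = fun i => rse e.1 (P i) := funext fun i => hpe i e
      rw [this]
      exact hval P hP e
    cases l with
    | none => exact ⟨Φ P, hΦ.mem P hP, h1⟩
    | some q => exact ⟨Φ P, hΦ.mem P hP, hΦ.has P hP q.1 q.2 (hhas q rfl), h1⟩
  · intro e t
    by_cases h : I ⊂ e.1 ∧ ∃ P, Q e (fun _ => t) P
    · have h1 : G e (fun _ => t) = rse e.1 (Φ h.2.choose) := dif_pos h
      rw [h1]
      exact hΦ.idem _ h.2.choose_spec.1 e.1 t h.2.choose_spec.2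
    · exact dif_neg h

end Pool.Agent.H68.GX
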