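import Pool.Agent.H53.GX.Targets2

/-!
Row VTP: valid tuples of families are tuples of patterns.
-/

set_option autoImplicit false

open Pool.Agent.H68.BP Pool.Agent.H58.SF Pool.Agent.H53.GM Pool.Agent.H53.GX
open Pool.Agent.H53.GR (So)

namespace Pool.Agent.H68.GX

open Classical in
theorem rse_sub {τ : Sig} {N k : ℕ} {F : Set (Str τ (Fin N))} (hk : 1 ≤ k)
    {I e : Finset (Fin k)} (he : ¬ I ⊂ e) {P P' : Ty τ N (Fin k)} (hP : Rl F P) (hP' : Rl F P')
    (h : ∀ e : So N k, ¬ I ⊂ e.1 → rse e.1 P = rse e.1 P') : rse e P ⊆ rse e P' := by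
  rintro ⟨D, ρ⟩ ⟨hq, hr⟩
  set e1 : Finset (Fin k) := (Finset.univ.image ρ).eraseNone with he1
  have hmem : ∀ v j, ρ v = some j → j ∈ e1 := by
    intro v j hv
    rw [he1, Finset.mem_eraseNone]
    exact Finset.mem_image.2 ⟨v, Finset.mem_univ v, hv⟩
  have hsub : e1 ⊆ e := by
    intro j hj
    rw [he1, Finset.mem_eraseNone] at hj
    obtain ⟨v, _, hv⟩ := Finset.mem_image.1 hj
    exact hr v j hv
  rcases e1.eq_empty_or_nonempty with h0 | h0
  · have hnone : ∀ v, ρ v = none := by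
      intro v
      cases hv : ρ v with
      | none => rfl
      | some j =>
        have := hmem v j hv
        rw [h0] at this
        exact absurd this (Finset.notMem_empty j)
    obtain ⟨W, _, M, a, _, rfl⟩ := hP
    obtain ⟨W', _, M', a', _, rfl⟩ := hP'
    obtain ⟨hRC, -⟩ := hq
    have hno : ∀ l z, ¬ D l z := by
      intro l z hz
      obtain ⟨v, _, hv⟩ := hRC Set.univ (fun _ _ _ _ _ => Set.mem_univ _)
        ⟨l, z, hz, fun _ => Set.mem_univ _⟩
      exact hv (hnone v)
    refine ⟨⟨hRC, fun _ => a' ⟨0, hk⟩, fun l z hz => absurd hz (hno l z), fun v i hv => ?_⟩,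
      fun v i hv => ?_⟩
    · exact absurd ((hnone v).symm.trans hv) (by simp)
    · exact absurd ((hnone v).symm.trans hv) (by simp)
  · have hcard : e1.card ≤ N := by
      rw [he1]
      refine (Finset.card_eraseNone_le _).trans ?_
      refine (Finset.card_image_le).trans ?_
      rw [Finset.card_univ, Fintype.card_fin]
    have h1 := h ⟨e1, h0, hcard⟩ (fun hI => he (lt_of_lt_of_le hI hsub))
    have h2 : (D, ρ) ∈ rse e1 P := ⟨hq, hmem⟩
    have h3 : (D, ρ) ∈ rse e1 P' := by
      rw [← h1]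
      exact h2
    exact ⟨h3.1, fun v i hv => hsub (h3.2 v i hv)⟩

theorem pf_VTP : Pool.Agent.H53.GX.T_VTP := by
  intro τ σ N k F Al hk C I hC J l p hp
  obtain ⟨hR, hE⟩ := hp
  have h1 : ∀ i, ∃ P ∈ C, (∀ e : So N k, p i e = rse e.1 P) ∧
      ∀ q, l = some q → hasl Al q.1 q.2 P := by
    intro i
    have h := hR i
    cases l with
    | none =>
      obtain ⟨P, hP, h2⟩ := h
      exact ⟨P, hP, h2, fun q hq => absurd hq (by simp)⟩
    | some q =>
      obtain ⟨P, hP, h2, h3⟩ := h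
      refine ⟨P, hP, h3, fun q' hq' => ?_⟩
      obtain rfl := Option.some.inj hq'
      exact h2
  choose P hP hpe hhas using h1
  have hrs : ∀ i i' (e : So N k), ¬ I ⊂ e.1 → rse e.1 (P i) = rse e.1 (P i') := by
    intro i i' e he
    rw [← hpe i e, ← hpe i' e]
    exact hE e he i i'
  refine ⟨P, ⟨hP, fun e he i i' => ?_⟩, hpe, fun q hq i => hhas i q hq⟩
  exact Set.Subset.antisymm (rse_sub hk he (hC _ (hP i)) (hC _ (hP i')) (hrs i i'))
    (rse_sub hk he (hC _ (hP i')) (hC _ (hP i)) (hrs i' i))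

end Pool.Agent.H68.GX
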